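import Pool.Agent.H78.SCT

set_option autoImplicit false

open Pool.Agent.H78.SCT

theorem Pool.Agent.Results.MP_1f99fc_al.Coarsest.result (n : ℕ) (F : Type) [Field F] [Fintype F]
    (θ : AddChar F ℂ) (hθ : θ ≠ 1) (X : Set (Set (U n F → ℂ))) (K : Set (Set (U n F)))
    (hS : IsSCT X K)
    (hb : ∀ i j : Fin n, i < j → ∀ a : F, a ≠ 0 → ∃ χ ∈ Irr (U n F), ({χ} : Set (U n F → ℂ)) ∈ X ∧
      ∃ c : ℝ, 0 < c ∧ ∀ g, box θ i j a g = c * χ g) :
    ∀ C ∈ K, ∀ x ∈ C, ∀ g ∈ C, Andre x g := by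
  intro C hC x hx g hg
  refine andre_of hθ (fun i j hij a ha => ?_)
  obtain ⟨χ, ⟨V, _, rfl⟩, hX, c, _, hc⟩ := hb i j hij a ha
  have h := hS.2.2.2.2.2 _ hX C hC x hx g hg
  rw [finsum_mem_singleton, finsum_mem_singleton] at h
  rw [hc, hc]
  by_cases h0 : V.character 1 = 0
  · rw [FDRep.char_one, Nat.cast_eq_zero] at h0
    have : Subsingleton V := Module.finrank_zero_iff.1 h0
    have e : V.ρ x = V.ρ g := LinearMap.ext (fun _ => Subsingleton.elim _ _)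
    unfold FDRep.character
    rw [e]
  · rw [mul_left_cancel₀ h0 h]
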